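import Mathlib

/-!
# Word-representability of the circulant graphs `C_{2n}(x, 1, n)`

We prove that for all integers `1 < x < n` the circulant graph on `ZMod (2 * n)` in which `i` is
adjacent to `i ± 1`, `i ± x` and `i + n` is word-representable.

Plan of the proof.
* An acyclic orientation without shortcuts (a semi-transitive orientation) yields a word
  (`wordRepresentable_of_orientation`).
* A rank function on `ZMod N` of the form `i ↦ (k * i).val`, for which all jumps land in the middle
  window `[N/4, 3N/4]`, yields such an orientation (`circulant_rank`).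
* For all pairs `(n, x)` except `x = n - 1`, `2 * x = n` and `(6, 2)` there is an odd multiplier `k`
  that moves `1` and `x` into the open window (`exists_mult`).
* `2 * x = n`: the boundary of the window is reached, and handled by hand.
* `x = n - 1`: the graph is obtained from the cycle by doubling every vertex.
* `(6, 2)`: an explicit rank function with four values.
-/

set_option autoImplicit false

namespace Pool.Agent.Results.MP_bde658_co.AllPairs

/-- Two letters `a` and `b` alternate in the word `w`: after deleting all other letters, no two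
consecutive letters of the resulting word are equal (so it reads `abab...` or `baba...`). -/
def Alternates {V : Type*} [DecidableEq V] (w : List V) (a b : V) : Prop :=
  (w.filter (fun c => decide (c = a ∨ c = b))).IsChain (fun x y => x ≠ y)

/-- A graph `G` is word-representable if some finite word `w`, in which every vertex occurs,
satisfies: distinct vertices `a`, `b` alternate in `w` if and only if they are adjacent. -/
def WordRepresentable {V : Type*} [DecidableEq V] (G : SimpleGraph V) : Prop :=
  ∃ w : List V, (∀ v : V, v ∈ w) ∧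
    ∀ a b : V, a ≠ b → (Alternates w a b ↔ G.Adj a b)

section orient

variable {V : Type*} [DecidableEq V]

open Relation

open Classical in
/-- the class of `x` relative to `v` -/
noncomputable def cls (D : V → V → Prop) (v x : V) : Fin 6 :=
  if x = v then 3 else if D x v then 1 else if D v x then 4
  else if TransGen D x v then 0 else if TransGen D v x then 5 else 2

/-- the word attached to a vertex -/
noncomputable def wd (D : V → V → Prop) (L : List V) (v : V) : List V :=
  ([0, 1, 2, 0, 3, 4, 1, 3, 5, 2, 4, 5] : List (Fin 6)).flatMap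
    (fun k => L.filter (fun x => decide (cls D v x = k)))

lemma filter_wd (D : V → V → Prop) (L : List V) (v : V) (p : V → Bool) :
    (wd D L v).filter p =
      ([0, 1, 2, 0, 3, 4, 1, 3, 5, 2, 4, 5] : List (Fin 6)).flatMap
        (fun k => (L.filter p).filter (fun x => decide (cls D v x = k))) := by
  unfold wd
  rw [List.filter_flatMap]
  congr 1
  funext k
  rw [List.filter_comm]

lemma filter_pair (L : List V) (hn : L.Nodup) (hL : ∀ v, v ∈ L) (a b : V) (hab : a ≠ b) :
    L.filter (fun c => decide (c = a ∨ c = b)) = [a, b] ∨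
    L.filter (fun c => decide (c = a ∨ c = b)) = [b, a] := by
  have hp : (L.filter (fun c => decide (c = a ∨ c = b))).Perm [a, b] := by
    rw [List.perm_ext_iff_of_nodup (hn.filter _) (by simp [hab])]
    intro c
    simp [hL]
  have hl := hp.length_eq
  obtain ⟨x, y, hxy⟩ := List.length_eq_two.1 hl
  rw [hxy] at hp ⊢
  have h1 : x ∈ [a, b] := hp.subset (by simp)
  have h2 : y ∈ [a, b] := hp.subset (by simp)
  have h3 : a ∈ [x, y] := hp.symm.subset (by simp)
  have h4 : b ∈ [x, y] := hp.symm.subset (by simp)
  simp only [List.mem_cons, List.not_mem_nil, or_false] at h1 h2 h3 h4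
  rcases h1 with rfl | rfl
  · rcases h4 with h4 | rfl
    · exact absurd h4.symm hab
    · left; rfl
  · rcases h3 with h3 | rfl
    · exact absurd h3 hab
    · right; rfl

lemma filter_pair_lt (L : List V) (hn : L.Nodup) (hL : ∀ v, v ∈ L) (r : V → ℕ)
    (hr : L.Pairwise (fun a b => r a ≤ r b)) (a b : V) (hab : r a < r b) :
    L.filter (fun c => decide (c = a ∨ c = b)) = [a, b] := by
  have hne : a ≠ b := by rintro rfl; exact lt_irrefl _ hab
  rcases filter_pair L hn hL a b hne with h | h
  · exact h
  · exfalso
    have h1 : [b, a].Sublist L := h ▸ List.filter_sublist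
    have h2 := hr.sublist h1
    simp at h2
    omega

lemma pair_classes (D : V → V → Prop) (r : V → ℕ) (hr : ∀ a b, D a b → r a < r b)
    (H : ∀ x y v, D x y → TransGen D x v → TransGen D v y → D x v ∧ D v y)
    (v a b : V) (hab : D a b) :
    (cls D v a, cls D v b) ∈ ([(0,0), (1,1), (2,2), (4,4), (5,5), (0,1), (1,4), (4,5), (0,2),
      (1,2), (2,4), (2,5), (1,3), (3,4)] : List (Fin 6 × Fin 6)) := by
  have hT : ∀ x y, TransGen D x y → r x < r y := by
    intro x y h
    induction h with
    | single h => exact hr _ _ h
    | tail _ h ih => exact ih.trans (hr _ _ h)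
  have hTab : TransGen D a b := TransGen.single hab
  have hne : a ≠ b := by rintro rfl; exact lt_irrefl _ (hr _ _ hab)
  have F1 : ∀ x y, D x y → TransGen D x y := fun x y h => TransGen.single h
  have F2 : ∀ x y z, TransGen D x y → TransGen D y z → TransGen D x z :=
    fun x y z h1 h2 => h1.trans h2
  have F3 : ∀ x, ¬ TransGen D x x := fun x h => lt_irrefl _ (hT _ _ h)
  unfold cls
  by_cases h1 : a = v
  · subst h1
    have h2 : b ≠ a := fun h => hne h.symm
    have h3 : ¬ D b a := fun h => F3 a (F2 _ _ _ hTab (F1 _ _ h))
    simp [h2, h3, hab]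
  · by_cases h2 : b = v
    · subst h2
      simp [hne, hab]
    · by_cases a1 : D a v
      · by_cases b1 : D b v
        · simp [h1, h2, a1, b1]
        · by_cases b2 : D v b
          · simp [h1, h2, a1, b1, b2]
          · by_cases b3 : TransGen D b v
            · exact absurd (H a v b a1 hTab b3).2 b1
            · by_cases b4 : TransGen D v b
              · exact absurd (H a b v hab (F1 _ _ a1) b4).2 b2
              · simp [h1, h2, a1, b1, b2, b3, b4]
      · by_cases a2 : D v a
        · have c1 : ¬ D b v := fun h => F3 v (F2 _ _ _ (F1 _ _ a2) (F2 _ _ _ hTab (F1 _ _ h)))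
          have c2 : ¬ TransGen D b v := fun h => F3 v (F2 _ _ _ (F1 _ _ a2) (F2 _ _ _ hTab h))
          have c3 : TransGen D v b := F2 _ _ _ (F1 _ _ a2) hTab
          by_cases b2 : D v b
          · simp [h1, h2, a1, a2, c1, b2]
          · simp [h1, h2, a1, a2, c1, c2, c3, b2]
        · by_cases a3 : TransGen D a v
          · by_cases b1 : D b v
            · simp [h1, h2, a1, a2, a3, b1]
            · by_cases b2 : D v b
              · exact absurd (H a b v hab a3 (F1 _ _ b2)).1 a1
              · by_cases b3 : TransGen D b v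
                · simp [h1, h2, a1, a2, a3, b1, b2, b3]
                · by_cases b4 : TransGen D v b
                  · exact absurd (H a b v hab a3 b4).1 a1
                  · simp [h1, h2, a1, a2, a3, b1, b2, b3, b4]
          · by_cases a4 : TransGen D v a
            · have c1 : ¬ D b v := fun h => F3 v (F2 _ _ _ a4 (F2 _ _ _ hTab (F1 _ _ h)))
              have c2 : ¬ TransGen D b v := fun h => F3 v (F2 _ _ _ a4 (F2 _ _ _ hTab h))
              have c3 : TransGen D v b := F2 _ _ _ a4 hTab
              have c4 : ¬ D v b := fun h => a2 (H v b a h a4 hTab).1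
              simp [h1, h2, a1, a2, a3, a4, c1, c2, c3, c4]
            · have c1 : ¬ D b v := fun h => a3 (F2 _ _ _ hTab (F1 _ _ h))
              have c2 : ¬ TransGen D b v := fun h => a3 (F2 _ _ _ hTab h)
              by_cases b2 : D v b
              · simp [h1, h2, a1, a2, a3, a4, c1, b2]
              · by_cases b4 : TransGen D v b
                · simp [h1, h2, a1, a2, a3, a4, c1, c2, b2, b4]
                · simp [h1, h2, a1, a2, a3, a4, c1, c2, b2, b4]

omit [DecidableEq V] in
lemma isChain_flatMap_pair (M : List V) (a b : V) (hab : a ≠ b) :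
    (M.flatMap (fun _ => [a, b, a, b])).IsChain (fun x y => x ≠ y) ∧
    (M.flatMap (fun _ => [a, b, a, b])).head? ≠ some b := by
  induction M with
  | nil => simp
  | cons m M ih =>
    rw [List.flatMap_cons]
    constructor
    · rw [List.isChain_append]
      refine ⟨by simp [hab, hab.symm], ih.1, ?_⟩
      intro x hx y hy
      simp at hx
      subst hx
      rintro rfl
      exact ih.2 hy
    · simp [hab]

theorem wordRepresentable_of_orientation [Fintype V] (G : SimpleGraph V) (D : V → V → Prop)
    (hD : ∀ a b, G.Adj a b ↔ (D a b ∨ D b a)) (r : V → ℕ)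
    (hr : ∀ a b, D a b → r a < r b)
    (H : ∀ x y v, D x y → TransGen D x v → TransGen D v y → D x v ∧ D v y) :
    WordRepresentable G := by
  classical
  let L : List V := (Finset.univ : Finset V).toList.mergeSort (fun a b => decide (r a ≤ r b))
  have hLp : L.Perm (Finset.univ : Finset V).toList := List.mergeSort_perm _ _
  have hn : L.Nodup := hLp.nodup_iff.2 (Finset.nodup_toList _)
  have hL : ∀ v, v ∈ L := fun v => hLp.mem_iff.2 (by simp)
  have hs : L.Pairwise (fun a b => r a ≤ r b) := by
    have := List.pairwise_mergeSort (le := fun a b => decide (r a ≤ r b))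
      (by intro a b c h1 h2; simp at h1 h2 ⊢; omega)
      (by intro a b; simp; omega) (Finset.univ : Finset V).toList
    simpa using this
  refine ⟨L.flatMap (wd D L), ?_, ?_⟩
  · intro v
    rw [List.mem_flatMap]
    refine ⟨v, hL v, ?_⟩
    unfold wd
    rw [List.mem_flatMap]
    refine ⟨3, by simp, ?_⟩
    rw [List.mem_filter]
    exact ⟨hL v, by simp [cls]⟩
  · -- alternation
    have key1 : ∀ a b, D a b → ∀ M : List V,
        ((M.flatMap (wd D L)).filter (fun c => decide (c = a ∨ c = b))) =
          M.flatMap (fun _ => [a, b, a, b]) := by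
      intro a b hab M
      rw [List.filter_flatMap]
      congr 1
      funext v
      rw [filter_wd, filter_pair_lt L hn hL r hs a b (hr a b hab)]
      have := pair_classes D r hr H v a b hab
      simp only [List.mem_cons, Prod.mk.injEq, List.not_mem_nil, or_false] at this
      rcases this with h | h | h | h | h | h | h | h | h | h | h | h | h | h <;>
      simp [List.filter, h.1, h.2]
    intro a b hab
    constructor
    · intro halt
      by_contra hadj
      rw [hD] at hadj
      push Not at hadj
      obtain ⟨s, t, hst⟩ := List.append_of_mem (hL a)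
      unfold Alternates at halt
      rw [List.filter_flatMap, hst, List.flatMap_append, List.flatMap_cons] at halt
      have h1 := (List.isChain_append.1 halt).2.1
      have h2 := (List.isChain_append.1 h1).1
      rw [filter_wd] at h2
      have hca : cls D a a = 3 := by simp [cls]
      have hcb : cls D a b = 0 ∨ cls D a b = 5 ∨ cls D a b = 2 := by
        unfold cls
        simp only [hab.symm, hadj.1, hadj.2, if_false]
        split_ifs <;> simp
      rcases filter_pair L hn hL a b hab with h | h
      all_goals
        rw [← hst, h] at h2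
        rcases hcb with hcb | hcb | hcb <;>
        simp [List.filter, hca, hcb] at h2
    · intro hadj
      rcases (hD a b).1 hadj with h | h
      · unfold Alternates
        rw [key1 a b h L]
        exact (isChain_flatMap_pair L a b hab).1
      · unfold Alternates
        have : (fun c => decide (c = a ∨ c = b)) = (fun c => decide (c = b ∨ c = a)) := by
          funext c; simp [or_comm]
        rw [this, key1 b a h L]
        exact (isChain_flatMap_pair L b a hab.symm).1

end orient


open Relation

/-- orientation by a rank function, non-strict version with an extra hypothesis -/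
theorem wordRepresentable_of_rank {V : Type*} [DecidableEq V] [Fintype V] (G : SimpleGraph V)
    (r : V → ℕ) (N : ℕ) (hN : 0 < N)
    (h0 : ∀ a b, G.Adj a b → r a < r b → 4 * r a + N ≤ 4 * r b ∧ 4 * r b ≤ 4 * r a + 3 * N)
    (h1 : ∀ a b, G.Adj a b → r a ≠ r b)
    (h2 : ∀ a b, 4 * r b = 4 * r a + 2 * N →
      (∃ c, G.Adj a c ∧ 4 * r c = 4 * r a + 3 * N) ∨ (∃ c, G.Adj c b ∧ 4 * r b = 4 * r c + 3 * N)
      → G.Adj a b) :
    WordRepresentable G := by
  have hT : ∀ a b, TransGen (fun a b => G.Adj a b ∧ r a < r b) a b →
      4 * r a + N ≤ 4 * r b ∧ (G.Adj a b ∨ 4 * r a + 2 * N ≤ 4 * r b) := by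
    intro a b h
    induction h with
    | single h => exact ⟨(h0 _ _ h.1 h.2).1, Or.inl h.1⟩
    | tail _ h ih =>
      have := (h0 _ _ h.1 h.2).1
      refine ⟨by omega, Or.inr (by omega)⟩
  refine wordRepresentable_of_orientation G (fun a b => G.Adj a b ∧ r a < r b) ?_ r
    (fun a b h => h.2) ?_
  · intro a b
    constructor
    · intro h
      rcases lt_or_gt_of_ne (h1 a b h) with h' | h'
      · exact Or.inl ⟨h, h'⟩
      · exact Or.inr ⟨h.symm, h'⟩
    · rintro (h | h)
      · exact h.1
      · exact h.1.symm
  · intro x y v hxy hxv hvy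
    obtain ⟨hxv1, hxv2⟩ := hT _ _ hxv
    obtain ⟨hvy1, hvy2⟩ := hT _ _ hvy
    have hb := (h0 _ _ hxy.1 hxy.2).2
    have hxv3 : r x < r v := by omega
    have hvy3 : r v < r y := by omega
    refine ⟨⟨?_, hxv3⟩, ⟨?_, hvy3⟩⟩
    · rcases hxv2 with h | h
      · exact h
      · exact h2 x v (by omega) (Or.inl ⟨y, hxy.1, by omega⟩)
    · rcases hvy2 with h | h
      · exact h
      · exact h2 v y (by omega) (Or.inr ⟨x, hxy.1, by omega⟩)

/-- linear rank functions on cyclic groups -/
theorem circulant_rank (N : ℕ) [NeZero N] (S : Set (ZMod N)) (k : ZMod N)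
    (hS : ∀ s ∈ S, N ≤ 4 * (k * s).val ∧ 4 * (k * s).val ≤ 3 * N)
    (h2 : ∀ t : ZMod N, 2 * (k * t).val = N →
      (∃ s ∈ S, 4 * (k * s).val = N ∨ 4 * (k * s).val = 3 * N) → t ∈ S) :
    WordRepresentable (SimpleGraph.circulantGraph S) := by
  have hN : 0 < N := Nat.pos_of_ne_zero (NeZero.ne N)
  have hsum : ∀ u v : ZMod N, (k * u).val = (k * v).val + (k * (u - v)).val ∨
      (k * u).val + N = (k * v).val + (k * (u - v)).val := by
    intro u v
    have e : k * u = k * v + k * (u - v) := by ring
    have e2 := ZMod.val_add (k * v) (k * (u - v))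
    rw [← e] at e2
    have l1 := ZMod.val_lt (k * v)
    have l2 := ZMod.val_lt (k * (u - v))
    rcases lt_or_ge ((k * v).val + (k * (u - v)).val) N with h' | h'
    · left
      rw [Nat.mod_eq_of_lt h'] at e2
      exact e2
    · right
      rw [Nat.mod_eq_sub_mod h', Nat.mod_eq_of_lt (by omega)] at e2
      omega
  have key2 : ∀ u v : ZMod N, (SimpleGraph.circulantGraph S).Adj u v →
      ∃ d, N ≤ 4 * d ∧ 4 * d ≤ 3 * N ∧
        ((k * u).val = (k * v).val + d ∨ (k * v).val = (k * u).val + d) ∧
        (4 * d = 3 * N → ∃ s ∈ S, 4 * (k * s).val = N ∨ 4 * (k * s).val = 3 * N) := by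
    intro u v h
    rw [SimpleGraph.circulantGraph_adj] at h
    rcases h.2 with h | h
    · have b := hS _ h
      rcases hsum u v with h3 | h3
      · exact ⟨(k * (u - v)).val, b.1, b.2, Or.inl h3, fun hd => ⟨_, h, Or.inr hd⟩⟩
      · exact ⟨N - (k * (u - v)).val, by omega, by omega, Or.inr (by omega),
          fun hd => ⟨_, h, Or.inl (by omega)⟩⟩
    · have b := hS _ h
      rcases hsum v u with h3 | h3
      · exact ⟨(k * (v - u)).val, b.1, b.2, Or.inr h3, fun hd => ⟨_, h, Or.inr hd⟩⟩
      · exact ⟨N - (k * (v - u)).val, by omega, by omega, Or.inl (by omega),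
          fun hd => ⟨_, h, Or.inl (by omega)⟩⟩
  refine wordRepresentable_of_rank _ (fun i => (k * i).val) N hN ?_ ?_ ?_
  · intro a b h hlt
    obtain ⟨d, h1, h2, h3, -⟩ := key2 a b h
    omega
  · intro a b h
    obtain ⟨d, h1, h2, h3, -⟩ := key2 a b h
    omega
  · intro a b h hc
    have hs : ∃ s ∈ S, 4 * (k * s).val = N ∨ 4 * (k * s).val = 3 * N := by
      rcases hc with ⟨c, hc1, hc2⟩ | ⟨c, hc1, hc2⟩
      · obtain ⟨d, h1, h2, h3, h4⟩ := key2 a c hc1
        exact h4 (by omega)
      · obtain ⟨d, h1, h2, h3, h4⟩ := key2 c b hc1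
        exact h4 (by omega)
    have ht : 2 * (k * (b - a)).val = N := by
      have l2 := ZMod.val_lt (k * (b - a))
      rcases hsum b a with h3 | h3 <;> omega
    rw [SimpleGraph.circulantGraph_adj]
    refine ⟨?_, Or.inr (h2 _ ht hs)⟩
    rintro rfl
    omega

theorem circulant_linear (N : ℕ) [NeZero N] (S : Set (ZMod N)) (k : ZMod N)
    (hS : ∀ s ∈ S, N < 4 * (k * s).val ∧ 4 * (k * s).val < 3 * N) :
    WordRepresentable (SimpleGraph.circulantGraph S) := by
  refine circulant_rank N S k (fun s hs => ⟨(hS s hs).1.le, (hS s hs).2.le⟩) ?_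
  rintro t - ⟨s, hs, h | h⟩
  · have := hS s hs; omega
  · have := hS s hs; omega

theorem wordRepresentable_twins {V V' : Type*} [DecidableEq V] [DecidableEq V'] [Fintype V']
    (G : SimpleGraph V) (G' : SimpleGraph V') (π : V' → V)
    (hπ : ∀ a b, a ≠ b → (G'.Adj a b ↔ (π a = π b ∨ G.Adj (π a) (π b))))
    (h : WordRepresentable G) : WordRepresentable G' := by
  obtain ⟨w, hw, hw2⟩ := h
  let L : List V' := (Finset.univ : Finset V').toList
  have hn : L.Nodup := Finset.nodup_toList _
  have hL : ∀ v, v ∈ L := fun v => by simp [L]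
  refine ⟨w.flatMap (fun v => L.filter (fun x => decide (π x = v))), ?_, ?_⟩
  · intro v
    rw [List.mem_flatMap]
    exact ⟨π v, hw _, by simp [hL]⟩
  · intro a b hab
    have hfil : (w.flatMap (fun v => L.filter (fun x => decide (π x = v)))).filter
        (fun c => decide (c = a ∨ c = b)) =
        w.flatMap (fun v => (L.filter (fun c => decide (c = a ∨ c = b))).filter
          (fun x => decide (π x = v))) := by
      rw [List.filter_flatMap]
      congr 1
      funext v
      rw [List.filter_comm]
    unfold Alternates
    rw [hfil, hπ a b hab]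
    by_cases hp : π a = π b
    · simp only [hp, true_or, iff_true]
      have gen : ∀ (p q : V') (hpq : p ≠ q) (hpi : π p = π b) (hqi : π q = π b) (M : List V),
          (M.flatMap (fun v => [p, q].filter (fun x => decide (π x = v)))).IsChain
            (fun x y => x ≠ y) ∧
          (M.flatMap (fun v => [p, q].filter (fun x => decide (π x = v)))).head? ≠ some q := by
        intro p q hpq hpi hqi M
        induction M with
        | nil => simp
        | cons m M ih =>
          rw [List.flatMap_cons]
          by_cases hm : π b = m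
          · have e : [p, q].filter (fun x => decide (π x = m)) = [p, q] := by
              simp [List.filter, hpi, hqi, hm]
            rw [e]
            constructor
            · rw [List.isChain_append]
              refine ⟨by simp [hpq], ih.1, ?_⟩
              intro x hx y hy
              simp at hx
              subst hx
              rintro rfl
              exact ih.2 hy
            · simp [hpq]
          · have e : [p, q].filter (fun x => decide (π x = m)) = [] := by
              simp [List.filter, hpi, hqi, hm]
            rw [e, List.nil_append]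
            exact ih
      rcases filter_pair L hn hL a b hab with h | h
      · rw [h]
        exact (gen a b hab hp rfl w).1
      · rw [h]
        exact (gen b a hab.symm rfl hp w).1
    · simp only [hp, false_or]
      rw [← hw2 (π a) (π b) hp]
      have gen : ∀ (M : List V), (M.flatMap (fun v => (L.filter (fun c => decide (c = a ∨ c = b))).filter
          (fun x => decide (π x = v)))) =
          (M.filter (fun c => decide (c = π a ∨ c = π b))).map (fun c => if c = π a then a else b) := by
        intro M
        induction M with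
        | nil => simp
        | cons m M ih =>
          rw [List.flatMap_cons, ih]
          have hpb : ¬ π b = π a := fun h => hp h.symm
          by_cases hm1 : m = π a
          · subst hm1
            rcases filter_pair L hn hL a b hab with h | h
            all_goals
              rw [h]
              simp [List.filter, hpb, hp]
          · by_cases hm2 : m = π b
            · subst hm2
              rcases filter_pair L hn hL a b hab with h | h
              all_goals
                rw [h]
                simp [List.filter, hpb, hp]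
            · have hm3 : ¬ π a = m := fun h => hm1 h.symm
              have hm4 : ¬ π b = m := fun h => hm2 h.symm
              rcases filter_pair L hn hL a b hab with h | h
              all_goals
                rw [h]
                simp [List.filter, hm1, hm2, hm3, hm4]
      rw [gen w, List.isChain_map]
      unfold Alternates
      apply List.IsChain.iff_of_mem_imp
      intro x y hx hy
      simp only [List.mem_filter, decide_eq_true_eq] at hx hy
      have hpb : ¬ π b = π a := fun h => hp h.symm
      rcases hx.2 with hx | hx <;> rcases hy.2 with hy | hy <;> simp [hx, hy, hp, hpb, hab, hab.symm]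

lemma mod_of_eq {k x n q r : ℕ} (h : k * x = r + 2 * n * q) (hr : r < 2 * n) :
    k * x % (2 * n) = r := by
  rw [h, Nat.add_mul_mod_self_left, Nat.mod_eq_of_lt hr]

/-- an odd `j` in a window -/
lemma exists_odd (n y : ℕ) (hy : 3 ≤ y) (hn : 2 * y < n) :
    ∃ c, n < 2 * (2 * c + 1) * y ∧ 2 * (2 * c + 1) * y < 3 * n ∧ 2 * (2 * c + 1) < n := by
  have hy0 : 0 < 2 * y := by omega
  have h1 : 2 * y * (n / (2 * y)) ≤ n := Nat.mul_div_le n (2 * y)
  have h2 : n < 2 * y * (n / (2 * y) + 1) := Nat.lt_mul_div_succ n hy0
  set q := n / (2 * y) with hq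
  -- `j` is the odd one among q+1, q+2
  have hj : ∃ c, q + 1 = 2 * c + 1 ∨ q + 2 = 2 * c + 1 := by
    rcases Nat.even_or_odd' q with ⟨c, hc | hc⟩
    · exact ⟨c, Or.inl (by omega)⟩
    · exact ⟨c + 1, Or.inr (by omega)⟩
  obtain ⟨c, hc⟩ := hj
  have e1 : n < 2 * (2 * c + 1) * y := by
    have : q + 1 ≤ 2 * c + 1 := by omega
    nlinarith
  have e2 : 2 * (2 * c + 1) * y < 3 * n := by
    have : 2 * c + 1 ≤ q + 2 := by omega
    nlinarith
  refine ⟨c, e1, e2, ?_⟩
  nlinarith

lemma exists_any (n y : ℕ) (hy : 2 ≤ y) (hn : 4 * y < n) :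
    ∃ i, n < 4 * i * y ∧ 4 * i * y < 3 * n ∧ 4 * i < n := by
  have hy0 : 0 < 4 * y := by omega
  have h1 : 4 * y * (n / (4 * y)) ≤ n := Nat.mul_div_le n (4 * y)
  have h2 : n < 4 * y * (n / (4 * y) + 1) := Nat.lt_mul_div_succ n hy0
  set q := n / (4 * y) with hq
  refine ⟨q + 1, by nlinarith, by nlinarith, by nlinarith⟩

/-- the arithmetic heart: an odd multiplier moving `1` and `x` into the middle window -/
lemma exists_mult (n x : ℕ) (h1 : 1 < x) (h2 : x + 1 < n) (h3 : 2 * x ≠ n)
    (h4 : ¬ (n = 6 ∧ x = 2)) :
    ∃ k, (n < 2 * (k * 1 % (2 * n)) ∧ 2 * (k * 1 % (2 * n)) < 3 * n) ∧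
      (n < 2 * (k * x % (2 * n)) ∧ 2 * (k * x % (2 * n)) < 3 * n) ∧
      (n < 2 * (k * n % (2 * n)) ∧ 2 * (k * n % (2 * n)) < 3 * n) := by
  have fin : ∀ j b, 2 * j < n → n + j = 2 * b + 1 →
      (∃ r q, (n + j) * x = r + 2 * n * q ∧ n < 2 * r ∧ 2 * r < 3 * n) →
      ∃ k, (n < 2 * (k * 1 % (2 * n)) ∧ 2 * (k * 1 % (2 * n)) < 3 * n) ∧
        (n < 2 * (k * x % (2 * n)) ∧ 2 * (k * x % (2 * n)) < 3 * n) ∧
        (n < 2 * (k * n % (2 * n)) ∧ 2 * (k * n % (2 * n)) < 3 * n) := by
    rintro j b hj hb ⟨r, q, hr, hr1, hr2⟩
    refine ⟨n + j, ?_, ?_, ?_⟩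
    · rw [mod_of_eq (r := n + j) (q := 0) (by ring) (by omega)]
      constructor <;> omega
    · rw [mod_of_eq hr (by omega)]
      exact ⟨hr1, hr2⟩
    · rw [mod_of_eq (r := n) (q := b) (by rw [hb]; ring) (by omega)]
      constructor <;> omega
  rcases Nat.even_or_odd' x with ⟨a, ha | ha⟩
  · -- x even
    rcases Nat.even_or_odd' n with ⟨b, hb | hb⟩
    · -- n even, x even
      rcases lt_or_ge n (2 * x) with h | h
      · refine fin 1 b (by omega) (by omega) ⟨x, a, ?_, by omega, by omega⟩
        subst ha; ring
      · -- 2x < n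
        have hlt : 2 * x < n := by omega
        have hj : ∃ c, n < 2 * (2 * c + 1) * x ∧ 2 * (2 * c + 1) * x < 3 * n ∧
            2 * (2 * c + 1) < n := by
          rcases Nat.lt_or_ge x 3 with hx | hx
          · have hx2 : x = 2 := by omega
            subst hx2
            have hn8 : 8 ≤ n := by omega
            refine ⟨(n / 4 + 1) / 2, ?_, ?_, ?_⟩ <;> omega
          · exact exists_odd n x hx hlt
        obtain ⟨c, hc1, hc2, hc3⟩ := hj
        refine fin (2 * c + 1) (b + c) hc3 (by omega) ⟨(2 * c + 1) * x, a, ?_, ?_, ?_⟩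
        · subst ha; ring
        · calc n < 2 * (2 * c + 1) * x := hc1
            _ = 2 * ((2 * c + 1) * x) := by ring
        · calc 2 * ((2 * c + 1) * x) = 2 * (2 * c + 1) * x := by ring
            _ < 3 * n := hc2
    · -- n odd, x even
      rcases lt_or_ge (4 * x) n with h | h
      · obtain ⟨i, hi1, hi2, hi3⟩ := exists_any n x (by omega) h
        refine fin (2 * i) (b + i) (by omega) (by omega) ⟨2 * i * x, a, ?_, ?_, ?_⟩
        · subst ha; ring
        · calc n < 4 * i * x := hi1
            _ = 2 * (2 * i * x) := by ring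
        · calc 2 * (2 * i * x) = 4 * i * x := by ring
            _ < 3 * n := hi2
      · rcases lt_or_ge (4 * x) (3 * n) with h' | h'
        · refine fin 2 (b + 1) (by omega) (by omega) ⟨2 * x, a, ?_, by omega, by omega⟩
          subst ha; ring
        · obtain ⟨y, hy⟩ : ∃ y, n = x + y := ⟨n - x, by omega⟩
          obtain ⟨i, hi1, hi2, hi3⟩ := exists_any n y (by omega) (by omega)
          have hle : 2 * i * y ≤ 2 * n := by nlinarith
          obtain ⟨r, hr⟩ : ∃ r, r + 2 * i * y = 2 * n := ⟨2 * n - 2 * i * y, by omega⟩
          have e4 : 4 * i * y = 2 * (2 * i * y) := by ring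
          rw [e4] at hi1 hi2
          -- (n + 2 i) x = n x + 2 i n - 2 i y = n x + 2 i n - 2n + r
          have hi0 : 0 < i := by
            rcases Nat.eq_zero_or_pos i with h0 | h0
            · subst h0; simp at hi1
            · exact h0
          refine fin (2 * i) (b + i) (by omega) (by omega) ⟨r, a + i - 1, ?_, by omega, by omega⟩
          have e5 : a + i - 1 + 1 = a + i := by omega
          have : (n + 2 * i) * x + 2 * i * y = r + 2 * n * (a + i - 1) + 2 * i * y := by
            calc (n + 2 * i) * x + 2 * i * y = n * x + 2 * i * (x + y) := by ring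
              _ = n * (2 * a) + 2 * i * n := by rw [← hy, ha]
              _ = 2 * n * (a + i) := by ring
              _ = 2 * n * (a + i - 1 + 1) := by rw [e5]
              _ = 2 * n * (a + i - 1) + 2 * n := by ring
              _ = 2 * n * (a + i - 1) + (r + 2 * i * y) := by rw [hr]
              _ = r + 2 * n * (a + i - 1) + 2 * i * y := by ring
          omega
  · -- x odd
    rcases Nat.even_or_odd' n with ⟨b, hb | hb⟩
    · -- n even
      rcases lt_or_ge (2 * x) n with h | h
      · refine fin 1 b (by omega) (by omega) ⟨n + x, a, ?_, by omega, by omega⟩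
        subst ha; ring
      · obtain ⟨y, hy⟩ : ∃ y, n = x + y := ⟨n - x, by omega⟩
        obtain ⟨c, hc1, hc2, hc3⟩ := exists_odd n y (by omega) (by omega)
        have e4 : 2 * (2 * c + 1) * y = 2 * ((2 * c + 1) * y) := by ring
        rw [e4] at hc1 hc2
        obtain ⟨r, hr⟩ : ∃ r, r + (2 * c + 1) * y = 2 * n := ⟨2 * n - (2 * c + 1) * y, by omega⟩
        refine fin (2 * c + 1) (b + c) hc3 (by omega) ⟨r, a + c, ?_, by omega, by omega⟩
        have : (n + (2 * c + 1)) * x + (2 * c + 1) * y = r + 2 * n * (a + c) + (2 * c + 1) * y := by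
          calc (n + (2 * c + 1)) * x + (2 * c + 1) * y = n * x + (2 * c + 1) * (x + y) := by ring
            _ = n * (2 * a + 1) + (2 * c + 1) * n := by rw [← hy, ha]
            _ = 2 * n * (a + c) + 2 * n := by ring
            _ = 2 * n * (a + c) + (r + (2 * c + 1) * y) := by rw [hr]
            _ = r + 2 * n * (a + c) + (2 * c + 1) * y := by ring
        omega
    · -- n odd
      refine fin 0 b (by omega) (by omega) ⟨n, a, ?_, by omega, by omega⟩
      subst ha; ring

/-- the generic pairs -/
theorem generic_case (n x : ℕ) (h1 : 1 < x) (h2 : x + 1 < n) (h3 : 2 * x ≠ n)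
    (h4 : ¬ (n = 6 ∧ x = 2)) :
    WordRepresentable (SimpleGraph.circulantGraph
      ({1, (x : ZMod (2 * n)), (n : ZMod (2 * n))} : Set (ZMod (2 * n)))) := by
  have : NeZero (2 * n) := ⟨by omega⟩
  obtain ⟨k, hk1, hkx, hkn⟩ := exists_mult n x h1 h2 h3 h4
  refine circulant_linear (2 * n) _ (k : ZMod (2 * n)) ?_
  intro s hs
  have hv : ∀ a : ℕ, ((k : ZMod (2 * n)) * (a : ZMod (2 * n))).val = k * a % (2 * n) := by
    intro a
    rw [← Nat.cast_mul, ZMod.val_natCast]
  rcases hs with rfl | rfl | hs
  · have := hv 1
    rw [Nat.cast_one] at this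
    rw [this]
    omega
  · rw [hv x]
    omega
  · rw [Set.mem_singleton_iff] at hs
    subst hs
    rw [hv n]
    omega

/-- the case `2 * x = n` -/
theorem half_case (m : ℕ) (h1 : 1 < m) :
    WordRepresentable (SimpleGraph.circulantGraph
      ({1, (m : ZMod (2 * (2 * m))), ((2 * m : ℕ) : ZMod (2 * (2 * m)))} :
        Set (ZMod (2 * (2 * m))))) := by
  have : NeZero (2 * (2 * m)) := ⟨by omega⟩
  have hv : ∀ a : ℕ, (((2 * m + 1 : ℕ) : ZMod (2 * (2 * m))) * (a : ZMod (2 * (2 * m)))).val =
      (2 * m + 1) * a % (2 * (2 * m)) := by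
    intro a
    rw [← Nat.cast_mul, ZMod.val_natCast]
  have h4 : ((4 * m : ℕ) : ZMod (2 * (2 * m))) = 0 := by
    rw [ZMod.natCast_eq_zero_iff]
    exact ⟨1, by ring⟩
  refine circulant_rank (2 * (2 * m)) _ ((2 * m + 1 : ℕ) : ZMod (2 * (2 * m))) ?_ ?_
  · intro s hs
    rcases hs with rfl | rfl | hs
    · have := hv 1
      rw [Nat.cast_one] at this
      rw [this, Nat.mod_eq_of_lt (by omega)]
      omega
    · rw [hv m]
      rcases Nat.even_or_odd' m with ⟨b, hb | hb⟩
      · rw [mod_of_eq (r := m) (q := b) (by subst hb; ring) (by omega)]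
        omega
      · rw [mod_of_eq (r := 3 * m) (q := b) (by subst hb; ring) (by omega)]
        omega
    · rw [Set.mem_singleton_iff] at hs
      subst hs
      rw [hv (2 * m), mod_of_eq (r := 2 * m) (q := m) (by ring) (by omega)]
      omega
  · intro t ht _
    have ht2 : (((2 * m + 1 : ℕ) : ZMod (2 * (2 * m))) * t).val = 2 * m := by omega
    have ht3 : ((2 * m + 1 : ℕ) : ZMod (2 * (2 * m))) * t = ((2 * m : ℕ) : ZMod (2 * (2 * m))) :=
      (ZMod.natCast_zmod_val _).symm.trans (by rw [ht2])
    right; right
    rw [Set.mem_singleton_iff]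
    push_cast at h4 ht3 ⊢
    have e : t = (2 * (m : ZMod (2 * (2 * m))) + 1) * ((2 * (m : ZMod (2 * (2 * m))) + 1) * t)
        - (4 * (m : ZMod (2 * (2 * m)))) * ((m + 1) * t) := by ring
    rw [h4, ht3] at e
    rw [e]
    have e2 : (2 * (m : ZMod (2 * (2 * m))) + 1) * (2 * m) - 0 * ((m + 1) * t) =
      4 * m * m + 2 * m := by ring
    rw [e2, h4]
    ring

/-- the case `x = n - 1` -/
theorem twin_case (x : ℕ) (h1 : 1 < x) :
    WordRepresentable (SimpleGraph.circulantGraph
      ({1, (x : ZMod (2 * (x + 1))), ((x + 1 : ℕ) : ZMod (2 * (x + 1)))} :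
        Set (ZMod (2 * (x + 1))))) := by
  have : NeZero (2 * (x + 1)) := ⟨by omega⟩
  have : NeZero (x + 1) := ⟨by omega⟩
  have hcyc : WordRepresentable (SimpleGraph.circulantGraph ({1} : Set (ZMod (x + 1)))) := by
    refine circulant_linear (x + 1) _ (((x + 1) / 2 : ℕ) : ZMod (x + 1)) ?_
    intro s hs
    rw [Set.mem_singleton_iff] at hs
    subst hs
    rw [mul_one, ZMod.val_natCast, Nat.mod_eq_of_lt (by omega)]
    omega
  refine wordRepresentable_twins _ _
    (ZMod.castHom (Dvd.intro_left 2 rfl : (x + 1) ∣ 2 * (x + 1)) (ZMod (x + 1))) ?_ hcyc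
  intro a b hab
  set π := ZMod.castHom (Dvd.intro_left 2 rfl : (x + 1) ∣ 2 * (x + 1)) (ZMod (x + 1)) with hπ
  have hker : ∀ t : ZMod (2 * (x + 1)), π t = 0 →
      t = 0 ∨ t = ((x + 1 : ℕ) : ZMod (2 * (x + 1))) := by
    intro t ht
    have e : t = ((t.val : ℕ) : ZMod (2 * (x + 1))) := (ZMod.natCast_zmod_val t).symm
    rw [e, map_natCast, ZMod.natCast_eq_zero_iff] at ht
    obtain ⟨c, hc⟩ := ht
    have hlt := ZMod.val_lt t
    have hc2 : c < 2 := by
      by_contra hcon
      push Not at hcon
      nlinarith
    interval_cases c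
    · left
      rw [e, hc]; simp
    · right
      rw [e, hc]; simp
  have h2n : ((x : ZMod (2 * (x + 1))) + 1) + ((x : ZMod (2 * (x + 1))) + 1) = 0 := by
    have : ((2 * (x + 1) : ℕ) : ZMod (2 * (x + 1))) = 0 := ZMod.natCast_self _
    push_cast at this
    rw [← this]; ring
  have hx0 : ((x : ZMod (x + 1)) + 1) = 0 := by
    have : ((x + 1 : ℕ) : ZMod (x + 1)) = 0 := ZMod.natCast_self _
    push_cast at this
    exact this
  rw [SimpleGraph.circulantGraph_adj, SimpleGraph.circulantGraph_adj]
  simp only [Set.mem_insert_iff, Set.mem_singleton_iff, hab, not_false_eq_true, true_and]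
  constructor
  · rintro ((h | h | h) | (h | h | h))
    all_goals
      have h' := congrArg π h
      simp only [map_sub, map_one, map_natCast] at h'
      push_cast at h'
    · by_cases hab' : π a = π b
      · exact Or.inl hab'
      · exact Or.inr ⟨hab', Or.inl h'⟩
    · by_cases hab' : π a = π b
      · exact Or.inl hab'
      · refine Or.inr ⟨hab', Or.inr ?_⟩
        rw [← neg_sub, h']
        linear_combination (-1 : ZMod (x + 1)) * hx0
    · left
      rw [hx0] at h'
      exact sub_eq_zero.1 h'
    · by_cases hab' : π a = π b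
      · exact Or.inl hab'
      · exact Or.inr ⟨hab', Or.inr h'⟩
    · by_cases hab' : π a = π b
      · exact Or.inl hab'
      · refine Or.inr ⟨hab', Or.inl ?_⟩
        rw [← neg_sub, h']
        linear_combination (-1 : ZMod (x + 1)) * hx0
    · left
      rw [hx0] at h'
      exact (sub_eq_zero.1 h').symm
  · rintro (h | ⟨-, h | h⟩)
    · rcases hker (a - b) (by rw [map_sub, h, sub_self]) with h' | h'
      · exact absurd (sub_eq_zero.1 h') hab
      · exact Or.inl (Or.inr (Or.inr h'))
    · rcases hker (a - b - 1) (by rw [map_sub, map_sub, map_one, h, sub_self]) with h' | h'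
      · exact Or.inl (Or.inl (by linear_combination h'))
      · right; right; left
        push_cast at h'
        linear_combination (-1 : ZMod (2 * (x + 1))) * h' - h2n
    · rcases hker (b - a - 1) (by rw [map_sub, map_sub, map_one, h, sub_self]) with h' | h'
      · exact Or.inr (Or.inl (by linear_combination h'))
      · left; right; left
        push_cast at h'
        linear_combination (-1 : ZMod (2 * (x + 1))) * h' - h2n

/-- the pair `(6, 2)` -/
theorem six_two_case :
    WordRepresentable (SimpleGraph.circulantGraph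
      ({1, ((2 : ℕ) : ZMod 12), ((6 : ℕ) : ZMod 12)} : Set (ZMod 12))) := by
  refine wordRepresentable_of_rank _ (fun i => i.val % 4) 4 (by omega) ?_ ?_ ?_
  · simp only [SimpleGraph.circulantGraph_adj, Set.mem_insert_iff, Set.mem_singleton_iff]
    decide +kernel
  · simp only [SimpleGraph.circulantGraph_adj, Set.mem_insert_iff, Set.mem_singleton_iff]
    decide +kernel
  · simp only [SimpleGraph.circulantGraph_adj, Set.mem_insert_iff, Set.mem_singleton_iff]
    decide +kernel

/-- **Main theorem.** For all integers `1 < x < n`, the circulant graph `C_{2n}(x, 1, n)` is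
word-representable. -/
theorem result (n x : ℕ) (h1 : 1 < x) (h2 : x < n) :
    WordRepresentable (SimpleGraph.circulantGraph
      ({1, (x : ZMod (2 * n)), (n : ZMod (2 * n))} : Set (ZMod (2 * n)))) := by
  by_cases h3 : x + 1 < n
  · by_cases h4 : 2 * x = n
    · subst h4
      exact half_case x h1
    · by_cases h5 : n = 6 ∧ x = 2
      · obtain ⟨rfl, rfl⟩ := h5
        exact six_two_case
      · exact generic_case n x h1 h3 h4 h5
  · have h6 : n = x + 1 := by omega
    subst h6
    exact twin_case x h1

end Pool.Agent.Results.MP_bde658_co.AllPairs
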